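import Mathlib

set_option autoImplicit false

namespace Pool.Agent.Results.MP_30555c_co.Star

open Finset SimpleGraph

open Classical in
/-- The change at `w` caused by firing each vertex `u` exactly `σ u` times (the Laplacian applied to `σ`). -/
noncomputable def lap {V : Type} [Fintype V] (G : SimpleGraph V) (σ : V → ℤ) (w : V) : ℤ :=
  ∑ u, if G.Adj w u then σ w - σ u else 0

open Classical in
/-- Divisorial gonality: the least degree of an effective divisor of positive rank. -/
noncomputable def gon {V : Type} [Fintype V] (G : SimpleGraph V) : ℕ :=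
  sInf {d : ℕ | ∃ D : V → ℤ, (∀ w, 0 ≤ D w) ∧ ∑ w, D w = d ∧
    ∀ v, ∃ σ : V → ℤ, ∀ w, 0 ≤ D w - (if w = v then 1 else 0) - lap G σ w}

theorem lap_eq {V : Type} [Fintype V] (G : SimpleGraph V) [DecidableRel G.Adj] (σ : V → ℤ) (w : V) :
    lap G σ w = ∑ u, if G.Adj w u then σ w - σ u else 0 := by
  unfold lap; congr!

def T : SimpleGraph (Fin 4) := fromRel fun a _ => a = 0

def H : SimpleGraph (Fin 8) := fromRel fun a b => a < 3 ∧ b < 3 ∨ a = 3 ∧ 2 ≤ b

instance : DecidableRel T.Adj := fun _ _ => inferInstanceAs (Decidable (_ ∧ _))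
instance : DecidableRel H.Adj := fun _ _ => inferInstanceAs (Decidable (_ ∧ _))
instance : DecidableRel (T □ H).Adj := fun _ _ => inferInstanceAs (Decidable (_ ∨ _))

def D (w : Fin 4 × Fin 8) : ℤ := (if w.2 = 2 then 1 else 0) + if w.1 = 0 ∧ w.2 < 3 then 1 else 0

def σ (v w : Fin 4 × Fin 8) : ℤ :=
  if v.2 < 3 then (if v.1 ≠ 0 ∧ v.1 ≠ w.1 ∧ w.2 < 3 then 1 else 0)
  else (if w.2 < 3 then 1 else 0) + if v.2 ≠ 3 ∧ v.2 ≠ w.2 then 1 else 0

theorem pos : ∀ v w, 0 ≤ D w - (if w = v then 1 else 0) -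
    ∑ u, if (T □ H).Adj w u then σ v w - σ v u else 0 := by decide +kernel

theorem result : ∃ (A B : Type) (_ : Fintype A) (_ : Fintype B) (T : SimpleGraph A) (H : SimpleGraph B),
    T.IsTree ∧ H.Connected ∧ gon (T □ H) ≠ min (Fintype.card B) (Fintype.card A * gon H) := by
  refine ⟨Fin 4, Fin 8, inferInstance, inferInstance, T, H,
    isTree_iff_connected_and_card.mpr ⟨by decide +kernel, ?_⟩, by decide +kernel, ?_⟩
  · rw [Nat.card_eq_fintype_card, Nat.card_eq_fintype_card]
    decide +kernel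
  have a : gon (T □ H) ≤ 7 := Nat.sInf_le ⟨D, by decide +kernel, by decide +kernel, fun v =>
    ⟨σ v, fun w => by rw [lap_eq]; convert pos v w⟩⟩
  have b : 2 ≤ gon H := by
    refine le_csInf ⟨8, fun _ => 1, by simp, by simp, fun v => ⟨0, fun w => ?_⟩⟩ ?_
    · simp only [lap, Pi.zero_apply, sub_self, ite_self, sum_const_zero]
      split_ifs <;> simp
    · rintro d ⟨E, h0, h1, h2⟩
      obtain ⟨f, hf⟩ := h2 0
      obtain ⟨g, hg⟩ := h2 1
      simp only [lap_eq, Fin.forall_fin_succ, Fin.sum_univ_eight] at h0 h1 hf hg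
      simp [H] at h0 hf hg
      omega
  simp only [Fintype.card_fin]
  omega

end Pool.Agent.Results.MP_30555c_co.Star
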